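import Pool.Agent.H22.G4.BRO
import Pool.Agent.H82.HD.TR

/-!
MP_ee74d2_an, theorem HD: a ball of radius `R`, without and with the two-ends case
(after `Pool.Agent.H22.G4.BRO`, one family of planks).
-/

set_option autoImplicit false

namespace Pool.Agent.H1.HDN

open MeasureTheory Set
open Pool.Agent.H83.G Pool.Agent.H83.G.TEN Pool.Agent.H83.G.BRO Pool.Agent.H82.HD
open Pool.Agent.H22.G (co)
open Pool.Agent.H22.G4.BRO (numXx caseOx caseTx)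
open scoped ENNReal NNReal RealInnerProductSpace

open scoped Classical in
/-- the body of the two-ends case -/
def TB (m L : ℕ) (x : ℝ) (β : E m → ℂ) (ψ : Z m → ℝ) (δ ε₀ ε₂ B : ℝ) (N : ℕ) (C : ℝ) : Prop :=
  ∀ (κ R T A H En : ℝ) (G : Z m → ℂ) (z₀ : Z m)
  (S : Finset (Pk m)) (a b : ℝ) (l k : ℕ) (QQ : Finset (Zi m)) (ν : ℝ)
  (X : Finset (Z m)), 0 ≤ κ → κ ≤ 3 / 8 → 1 ≤ R → C ≤ R ^ δ → R ^ (1 + ε₂) ≤ T → 0 < A → 0 < H →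
  A ≤ R ^ δ * H → 0 < En → Cls L κ R A G → BC β κ R T A G →
  Sep X → (∀ z ∈ X, ‖z - z₀‖ ≤ R ∧ T ≤ tm z ∧ tm z ≤ 2 * T) →
  (∀ W ∈ S, W.1 ∈ Ks m (sR R) ∧ (∃ z, ‖z - z₀‖ ≤ R ∧ near R δ W z) ∧
    ‖ctr (sR R) W.1‖ ≤ 3 ∧ a ≤ al N β R δ G W ∧ al N β R δ G W ≤ 2 * a) →
  ((S.card : ℝ) ≤ B * R ^ (2 * ((m : ℝ) + 2))) →
  0 < a → 1 ≤ b →
  (∀ W ∈ S, b ≤ ((S.filter (fun W' => tb R W' = tb R W)).card : ℝ) ∧
    ((S.filter (fun W' => tb R W' = tb R W)).card : ℝ) ≤ 2 * b) →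
  (∑ W ∈ S, al N β R δ G W ^ 2 * R ^ (((m : ℝ) + 2) / 2) ≤ En) →
  En ≤ B * R ^ (lo m * δ) * (A ^ 2 * R ^ ((m : ℝ) + 2)) →
  0 < ν → ν * QQ.card ≤ R ^ δ * X.card →
  (∀ q, ((X.filter (fun z => cb (Real.sqrt R) z = q)).card : ℝ) ≤ 2 * ν) →
  (∀ z ∈ X, cb (Real.sqrt R) z ∈ QQ) →
  (∀ q ∈ QQ, ‖Real.sqrt R • zc q - z₀‖ ≤ ((m : ℝ) + 2) * R) →
  C ≤ (2 : ℝ) ^ k →
  (∀ z ∈ X, H ≤ ‖∑ W ∈ SB QQ R (R ^ (1 - ε₀)) δ l k S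
    (bl R (R ^ (1 - ε₀)) (cb (Real.sqrt R) z)), Fp β ψ R δ G W z‖) →
  (X.card : ℝ) * H ^ (2 + x) ≤
    C * R ^ ((lb m - 1) * (δ + ε₀)) * A ^ x * R ^ (m * x / 2 - 1) * En

theorem tb_ex {m L : ℕ} {x γ : ℝ} {β : E m → ℂ} {Ψ : Z m → ℂ} {ψ : Z m → ℝ} {δ ε₀ ε₂ B : ℝ}
    (hβ : IsPU β) (hΨ : IsPsi Ψ ψ) (hδ : 0 < δ) (hδ' : δ ≤ 1 / 100) (hε : 0 < ε₀)
    (hε' : ε₀ ≤ 1 / 4) (hB : 1 ≤ B) :
    ∃ N : ℕ, 2 * m + 6 ≤ N ∧ ∃ C : ℝ, 1 ≤ C ∧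
      (TENd m L x γ → δ ≤ γ → ε₀ ≤ γ → 4 * δ ≤ ε₂ → TB m L x β ψ δ ε₀ ε₂ B N C) := by
  by_cases h : TENd m L x γ ∧ δ ≤ γ ∧ ε₀ ≤ γ ∧ 4 * δ ≤ ε₂
  · obtain ⟨h1, h2, h3, h4⟩ := h
    obtain ⟨N₀, hN₀⟩ := h1 β Ψ ψ δ ε₀ ε₂ B hβ hΨ hδ h2 hδ' hε h3 hε' h4 hB
    obtain ⟨C, hC, hT⟩ := hN₀ (max N₀ (2 * m + 6)) (le_max_left _ _)
    exact ⟨_, le_max_right _ _, C, hC, fun _ _ _ _ => hT⟩
  · exact ⟨2 * m + 6, le_rfl, 1, le_rfl, fun h1 h2 h3 h4 => absurd ⟨h1, h2, h3, h4⟩ h⟩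

theorem BC_mono {m : ℕ} {β : E m → ℂ} {κ κ' R T A : ℝ} {G : Z m → ℂ} (h : κ ≤ κ') (hT : 0 ≤ T)
    (hG : BC β κ R T A G) : BC β κ' R T A G := by
  intro ρ z₁ p h1 h2 h3 h4
  refine hG ρ z₁ p h1 h2 (le_trans ?_ h3) (h4.trans ?_)
  · gcongr
  · gcongr

theorem BC_monoA {m : ℕ} {β : E m → ℂ} {κ R T A A' : ℝ} {G : Z m → ℂ} (hR : 0 ≤ R) (hA : 0 ≤ A)
    (h : A ≤ A') (hG : BC β κ R T A G) : BC β κ R T A' G := by
  intro ρ z₁ p h1 h2 h3 h4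
  refine (hG ρ z₁ p h1 h2 h3 h4).trans ?_
  apply ENNReal.ofReal_le_ofReal
  have hρ : 0 < ρ := by linarith
  gcongr

theorem Bdp_mono {m L : ℕ} {β : E m → ℂ} {x κ κ' R T g : ℝ} (h : κ ≤ κ') (hR : 0 < R)
    (hT : 0 ≤ T) (hκ : κ ≤ 1 / 2) (hB : Bdp m L β x κ' R T g) : Bdp m L β x κ R T g := by
  intro A H G X hA hH hG hBC hX hXH
  exact hB A H G X hA hH (Cls_mono h hR hκ hG) (BC_mono h hT hBC) hX hXH

theorem caseAx (m : ℕ) (x : ℝ) (R δ ε₀ ε₁ C C9 CO CN CA T g A S e : ℝ) (hR1 : 1 ≤ R)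
    (hδ : 0 < δ) (hε₁ : 0 < ε₁) (hg : 0 ≤ g) (hA : 0 < A) (he : 0 ≤ e) (hC9 : 0 ≤ C9)
    (hCO : 0 ≤ CO) (hT0 : 0 ≤ T) (hCN : 0 ≤ CN)
    (hT : T ≤ CN * R ^ (((m : ℝ) + 2) * ε₀)) (hCA : 0 ≤ CA) (hS0 : 0 ≤ S) (hS : S ≤ CA * e)
    (hC : 2 ^ 30 * C9 * CO * CN * CA ≤ C) (hC0 : 0 ≤ C) :
    2 ^ 30 * C9 * R ^ (δ / 2) * (CO * R ^ (2 * lo m * δ) * T * g * A ^ x *
      R ^ (m * x / 2 - 1) * S) ≤
      C * (R ^ (ε₁ + lb m * δ + (m + 2) * ε₀) * g) * A ^ x * R ^ (m * x / 2 - 1) * e := by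
  have hR0 : 0 < R := by linarith
  have h1 : R ^ (δ / 2) * R ^ (2 * lo m * δ) * R ^ (((m : ℝ) + 2) * ε₀) ≤
      R ^ (ε₁ + lb m * δ + (m + 2) * ε₀) := by
    rw [← Real.rpow_add hR0, ← Real.rpow_add hR0]
    refine Real.rpow_le_rpow_of_exponent_le hR1 ?_
    have h2 : 1 + 2 * lo m ≤ lb m := by
      unfold lo lb
      have : (0 : ℝ) ≤ m := by positivity
      nlinarith
    nlinarith
  calc 2 ^ 30 * C9 * R ^ (δ / 2) * (CO * R ^ (2 * lo m * δ) * T * g * A ^ x *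
        R ^ (m * x / 2 - 1) * S)
      ≤ 2 ^ 30 * C9 * R ^ (δ / 2) * (CO * R ^ (2 * lo m * δ) *
        (CN * R ^ (((m : ℝ) + 2) * ε₀)) * g * A ^ x *
        R ^ (m * x / 2 - 1) * (CA * e)) := by gcongr
    _ = (2 ^ 30 * C9 * CO * CN * CA) * ((R ^ (δ / 2) * R ^ (2 * lo m * δ) *
        R ^ (((m : ℝ) + 2) * ε₀)) * g) * A ^ x * R ^ (m * x / 2 - 1) * e := by ring
    _ ≤ C * (R ^ (ε₁ + lb m * δ + (m + 2) * ε₀) * g) * A ^ x * R ^ (m * x / 2 - 1) * e := by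
        gcongr

/-- the number of balls on a tube -/
theorem nB_le {m : ℕ} {QQ : Finset (Zi m)} {R r δ : ℝ} {l k : ℕ} {S : Finset (Pk m)} {B : Zi m}
    (h : (SB QQ R r δ l k S B).Nonempty) : (2 : ℝ) ^ k ≤ ((QQ.image (bl R r)).card : ℝ) := by
  obtain ⟨W, hW⟩ := h
  have h1 := (mem_SB.1 hW).2.2.2.1
  have h2 : nB QQ R r δ l (tb R W) ≤ (QQ.image (bl R r)).card := by
    unfold nB
    classical
    refine le_trans (Finset.card_le_card (Finset.filter_subset _ _)) (le_of_eq ?_)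
    congr
  have h3 : 2 ^ k ≤ (QQ.image (bl R r)).card := h1.trans h2
  exact_mod_cast h3

open Classical in
theorem pf_BROp (hDCP : T_DCP) (hTLS : T_TLS) (hAMU : T_AMU) (hAEN : T_AEN) (hENB : T_ENB)
    (hPG1 : T_PG1) (hPG2 : T_PG2) (hPG3 : T_PG3) (hOENp : T_OENp) (hPSX : T_PSX)
    (hLWX : T_LWX) (hCBN : T_CBN) (hWT3 : T_WT3) : T_BROp := by
  intro m L x γ β δ ε₀ ε₁ ε₂ hm hx0 hx4 hmx hL hβ hδ hδ' hδε hε' hε₁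
  have hδ4 : δ ≤ 1 / 4 := by linarith
  have hε : 0 < ε₀ := by linarith
  obtain ⟨Ψ, ψ, hΨ⟩ := hPSX m
  obtain ⟨Ξ, χ, hΞ⟩ := hLWX m
  obtain ⟨CD, hCD, hD⟩ := hDCP m L β Ψ ψ δ 1 hβ hΨ hδ hδ4
  obtain ⟨CE, hCE, hE⟩ := hENB m L (m + 3) β δ hβ hδ le_rfl
  obtain ⟨N, hN2, CT, hCT, hT⟩ := tb_ex (m := m) (L := L) (x := x) (γ := γ) (ε₂ := ε₂)
    (B := max CD 1) hβ hΨ hδ hδ' hε hε' (le_max_right _ _)
  obtain ⟨CO, hCO, hO⟩ := hOENp m L N x β Ψ Ξ ψ χ δ ε₀ hm hx0 hx4 hmx hβ hΨ hΞ hδ hδ4 hδε hε'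
    hL hN2
  obtain ⟨CA, hA'⟩ := hAEN m N (m + 3) β δ hβ hδ.le (by omega)
  obtain ⟨C7, hC7, h7⟩ := hTLS m L N β Ψ ψ δ 1 hβ hΨ hδ hδ4 (by omega)
  obtain ⟨C8, hC8, h8⟩ := hAMU m L N β δ hβ hδ.le (by omega)
  obtain ⟨CS, hCS, hS⟩ := card_sep (m := m) hWT3
  obtain ⟨hcb, hinc, CN, hCN, -, hCN'⟩ := hCBN m
  have hb₀ : (0 : ℝ) < 1 := one_pos
  have hb₁ : 0 < 1 / (4 * C7) := by positivity
  have hB1 : 0 < C8 / (1 / (4 * C7)) := by positivity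
  obtain ⟨B', hB'1, hB'2, hB'3, hB'4, hB'5⟩ : ∃ B' : ℝ, 1 ≤ B' ∧ CD ≤ B' ∧
      C8 / (1 / (4 * C7)) ≤ B' ∧ CS ≤ B' ∧ 2 ≤ B' :=
    ⟨CD + C8 / (1 / (4 * C7)) + CS + 2, by linarith, by linarith, by linarith, by linarith,
      by linarith⟩
  obtain ⟨C9, hC9, h9⟩ := logn (2 * ((m : ℝ) + 2)) B' (δ / 2) (by positivity) hB'1
    (by linarith) 37
  obtain ⟨D, hD1, hD2⟩ : ∃ D : ℝ, 1 ≤ D ∧ 3 * (CA : ℝ) * CE ≤ D := by
    have : 0 ≤ 3 * (CA : ℝ) * CE := by positivity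
    exact ⟨3 * (CA : ℝ) * CE + 1, by linarith, by linarith⟩
  obtain ⟨C', hC1', hCOC', -, -, hCR'⟩ := constsB δ ε₀ 1 CD CT CO CA C7 C9 D hδ hδ' hε hb₀ hCD
    hCT hCO CA.2 hC7 hC9 hD1
  obtain ⟨C, hC1, hCOC, hCC0, hCC1, hCC2, hCR⟩ : ∃ C : ℝ, 1 ≤ C ∧ CO ≤ C ∧
      2 ^ 30 * C9 * CO * CN * CA ≤ C ∧
      2 ^ 30 * C9 * CO * CT * CA ≤ C ∧ 2 ^ 30 * C9 * CT * CA * D ^ 4 ≤ C ∧
      ∀ R : ℝ, C ≤ R → 1 ≤ R ∧ CO ≤ R ^ ε₀ ∧ 2 * CD / 1 ≤ R ∧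
      16 * C9 * C7 / 1 ≤ R ^ (1 - δ / 2) ∧
      CT ≤ R ^ δ ∧ 8 * CO ≤ R ^ δ ∧ 16 * D * C9 ≤ R ^ (δ / 2) := by
    have a0 : (0 : ℝ) ≤ 2 ^ 30 * C9 * CO * CN * CA := by
      have := CA.2
      positivity
    have a1 : (0 : ℝ) ≤ 2 ^ 30 * C9 * CO * CT * CA := by
      have := CA.2
      positivity
    have a2 : (0 : ℝ) ≤ 2 ^ 30 * C9 * CT * CA * D ^ 4 := by
      have := CA.2
      positivity
    exact ⟨C' + 2 ^ 30 * C9 * CO * CN * CA + 2 ^ 30 * C9 * CO * CT * CA +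
      2 ^ 30 * C9 * CT * CA * D ^ 4, by linarith,
      by linarith, by linarith, by linarith, by linarith, fun R hR => hCR' R (by linarith)⟩
  clear hDCP hTLS hAMU hAEN hENB hOENp hPSX hLWX hCBN hWT3 hC1' hCOC' hCR'
  refine ⟨C, hC1, ?_⟩
  intro κ R T A H g G z₀ X hκ0 hκ hRC hRT hA hAH hg hG hBC hX hXall hBd
  have hH : 0 < H := by linarith
  have hAH1 : 1 * A ≤ H := by linarith
  have hXz : ∀ z ∈ X, ‖z - z₀‖ ≤ R := fun z hz => (hXall z hz).1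
  obtain ⟨hR1, r1, r2, r3, r4, r5, r6⟩ := hCR R hRC
  have hR0 : 0 < R := by linarith
  have hT0 : 0 < T := by linarith
  have hκ' : κ ≤ 1 / 2 := by linarith
  -- planks
  obtain ⟨S0, hS0, hS0c, hS0X⟩ : ∃ S : Finset (Pk m),
      (∀ W ∈ S, W.1 ∈ Ks m (sR R) ∧ (∃ z, ‖z - z₀‖ ≤ R ∧ near R δ W z) ∧
        ‖ctr (sR R) W.1‖ ≤ 3 ∧ ‖ctr (sR R) W.1 - 0‖ ≤ 1 / (1 / 2 : ℝ) + sR R) ∧
      (S.card : ℝ) ≤ CD * R ^ (2 * ((m : ℝ) + 2)) ∧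
      ∀ z ∈ X, H / 2 ≤ ‖∑ W ∈ S, Fp β ψ R δ G W z‖ := by
    refine famA hβ hκ hR1 hG (fun ζ hζ => ?_) hXz (fun z hz => (hXall z hz).2.2.2)
      (small1 hR0 hb₀ hA hAH1 hCD r2) (hD κ R A G z₀ hκ0 hκ' hR1 hA hG)
    rw [sub_zero, norm_smul, norm_inv]
    obtain ⟨g1, g2, g3, g4⟩ := hG.2.1 ζ hζ
    have g0 : 0 < ζ.1 := by linarith
    rw [Real.norm_of_nonneg g0.le, inv_mul_le_iff₀ g0]
    refine g3.trans ?_
    nlinarith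
  obtain ⟨n, hn1, hn3⟩ := h9 R hR1
  have hn2 : ((n : ℝ) + 1) ^ 25 ≤ C9 * R ^ (δ / 2) := by
    refine le_trans ?_ hn3
    exact pow_le_pow_right₀ (by have : (0 : ℝ) ≤ n := Nat.cast_nonneg n; linarith) (by norm_num)
  have hP1 : 1 ≤ R ^ (2 * ((m : ℝ) + 2)) := Real.one_le_rpow hR1 (by positivity)
  have hn : 1 ≤ n := by
    by_contra h
    have h0 : n = 0 := by omega
    rw [h0, pow_zero] at hn1
    nlinarith
  have hn1' : (1 : ℝ) ≤ n := by exact_mod_cast hn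
  obtain ⟨a₀, ha₀⟩ : ∃ a₀ : ℝ, a₀ = 1 / (4 * C7) * A * R ^ (-((m : ℝ) + 2)) := ⟨_, rfl⟩
  have ha₀0 : 0 < a₀ := by rw [ha₀]; positivity
  have hSn : S0.card ≤ 2 ^ n := by
    have h1 : (S0.card : ℝ) ≤ 2 ^ n := by
      refine (hS0c.trans ?_).trans hn1
      gcongr
    exact_mod_cast h1
  have hXn : X.card ≤ 2 ^ n := by
    have h1 : (X.card : ℝ) ≤ 2 ^ n := by
      refine ((hS R z₀ X hR1 hX hXz).trans ?_).trans hn1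
      gcongr
    exact_mod_cast h1
  have hal : ∀ W : Pk m, al N β R δ G W ≤ 2 ^ n * a₀ := fun W =>
    (h8 κ R A G W hκ0 hκ' hR1 hA hG).1.trans
      (small5 hR1 hA hb₀ hC7 hC8 ha₀ hB'3 hn1)
  obtain ⟨S', a, b, l, k, ν, QQ, X', hX'X, hQQ, hXc, hX'H, hS', hν, hνQ, hνX, hX'Q⟩ :=
    pigeon hPG1 hPG2 hPG3 (N := N) (β := β) (ψ := ψ) (R := R) (r := R ^ (1 - ε₀)) (δ := δ)
      (G := fun _ => G) (fun _ => S0) n a₀ (H / 2) X ha₀0 (by positivity) hn (fun _ => hSn) hXn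
      (fun _ W _ => hal W)
      (fun _ z _ T hT hTa => ((h7 κ R A G T z hκ0 hκ' hR1 hA hG
        (fun W hW => (hS0 W (hT hW)).1)).2 a₀ ha₀0.le hTa).trans
          (small4 hR1 hb₀ hAH1 hC7 ha₀))
      (fun _ z _ T hT hTa => ((h7 κ R A G T z hκ0 hκ' hR1 hA hG
        (fun W hW => (hS0 W (hT hW)).1)).1
          (fun W hW hnear => hTa W hW (hinc R δ W z hR1 hδ.le hnear))).trans
          (small2 hR1 hb₀ hA hAH1 hC7 r3 hn1' hn2))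
      (fun _ z hz => hS0X z hz)
  have hS'0 := hS' 0
  obtain ⟨S1, hS1⟩ : ∃ S1, S1 = S' 0 := ⟨_, rfl⟩
  obtain ⟨a1, ha1⟩ : ∃ a1, a1 = a 0 := ⟨_, rfl⟩
  obtain ⟨b1, hb1⟩ : ∃ b1, b1 = b 0 := ⟨_, rfl⟩
  obtain ⟨l1, hl1⟩ : ∃ l1, l1 = l 0 := ⟨_, rfl⟩
  obtain ⟨k1, hk1⟩ : ∃ k1, k1 = k 0 := ⟨_, rfl⟩
  have hX'H0 : ∀ z ∈ X', H / 2 ≤ 8 * ((n : ℝ) + 1) ^ 4 *
      ‖∑ W ∈ SB QQ R (R ^ (1 - ε₀)) δ l1 k1 S1
        (bl R (R ^ (1 - ε₀)) (cb (Real.sqrt R) z)), Fp β ψ R δ G W z‖ := by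
    intro z hz
    rw [hl1, hk1, hS1]
    exact hX'H z hz 0
  rw [← hS1, ← ha1, ← hb1] at hS'0
  clear hS' hX'H
  obtain ⟨hS1S, ha1a, hb11, hS1a, hS1b⟩ := hS'0
  obtain ⟨H', hH'⟩ : ∃ H' : ℝ, H' = H / (16 * ((n : ℝ) + 1) ^ 4) := ⟨_, rfl⟩
  have hH'0 : 0 < H' := by rw [hH']; positivity
  have hHH' : H = 16 * ((n : ℝ) + 1) ^ 4 * H' := by rw [hH']; field_simp
  have hX'H' : ∀ z ∈ X', H' ≤ ‖∑ W ∈ SB QQ R (R ^ (1 - ε₀)) δ l1 k1 S1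
      (bl R (R ^ (1 - ε₀)) (cb (Real.sqrt R) z)), Fp β ψ R δ G W z‖ := by
    intro z hz
    have h1 := hX'H0 z hz
    rw [hH', div_le_iff₀ (by positivity)]
    linarith
  have hX's : Sep X' := fun z hz z' hz' => hX z (hX'X hz) z' (hX'X hz')
  clear hal hX'H0 h7 hS0X hSn hXn h9 hPG1 hPG2 hPG3
  -- energies
  have hEi : Er (m + 3) β R δ G z₀ ≤
      ENNReal.ofReal (CE * R ^ (lo m * δ) * (A ^ 2 * R ^ ((m : ℝ) + 2))) :=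
    hE κ R A G z₀ hκ0 hκ' hR1 hA hG
  have hfin : Er (m + 3) β R δ G z₀ ≠ ⊤ := ne_top_of_le_ne_top ENNReal.ofReal_ne_top hEi
  obtain ⟨e, he⟩ : ∃ e : ℝ, e = (Er (m + 3) β R δ G z₀).toReal := ⟨_, rfl⟩
  have he0 : 0 ≤ e := by rw [he]; exact ENNReal.toReal_nonneg
  have heE : e ≤ 3 * (CE * R ^ (lo m * δ) * (A ^ 2 * R ^ ((m : ℝ) + 2))) := by
    have h1 : e ≤ CE * R ^ (lo m * δ) * (A ^ 2 * R ^ ((m : ℝ) + 2)) := by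
      rw [he]
      exact ENNReal.toReal_le_of_le_ofReal (by positivity) hEi
    have h2 : 0 ≤ CE * R ^ (lo m * δ) * (A ^ 2 * R ^ ((m : ℝ) + 2)) := by positivity
    linarith
  have hGr : ∀ ζ, G ζ ≠ 0 → ζ ∈ Rg m (1 / 2) R⁻¹ := fun ζ hζ =>
    Rg_mono hκ' (by positivity) hκ' (hG.2.1 ζ hζ)
  have hEn : ∑ W ∈ S1, al N β R δ G W ^ 2 * R ^ (((m : ℝ) + 2) / 2) ≤ CA * e := by
    rw [he]
    refine energy hR0 hfin (fun W _ => (h8 κ R A G W hκ0 hκ' hR1 hA hG).2) ?_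
    refine hA' R G z₀ S1 hR1 hG.1 hGr (fun W hW => ?_)
    have := hS0 W (hS1S hW)
    exact ⟨this.1, this.2.1⟩
  rw [← he]
  have hQz : ∀ q ∈ QQ, ‖Real.sqrt R • zc q - z₀‖ ≤ ((m : ℝ) + 2) * R := by
    intro q hq
    obtain ⟨z, hz, rfl⟩ := Finset.mem_image.1 (hQQ hq)
    exact small8 hR1 (hcb (Real.sqrt R) z (by positivity)) (hXz z hz)
  -- empty case
  rcases Finset.eq_empty_or_nonempty X' with hemp | ⟨z₁, hz₁⟩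
  · have h0 : (X.card : ℝ) = 0 := by
      rw [hemp] at hXc
      have a1 : (0 : ℝ) ≤ X.card := Nat.cast_nonneg _
      simp only [Finset.card_empty, Nat.cast_zero, mul_zero] at hXc
      linarith
    rw [h0, zero_mul]
    exact ⟨by positivity, fun _ _ _ _ _ => by positivity⟩
  have hSBn : (SB QQ R (R ^ (1 - ε₀)) δ l1 k1 S1
      (bl R (R ^ (1 - ε₀)) (cb (Real.sqrt R) z₁))).Nonempty := by
    rw [Finset.nonempty_iff_ne_empty]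
    intro h2
    have h1 := hX'H' z₁ hz₁
    rw [h2] at h1
    simp only [Finset.sum_empty, norm_zero] at h1
    linarith
  have hk : (2 : ℝ) ^ k1 ≤ CN * R ^ (((m : ℝ) + 2) * ε₀) := by
    refine (nB_le hSBn).trans ?_
    have h1 : R ^ (1 - ε₀) ≤ R := by
      calc R ^ (1 - ε₀) ≤ R ^ (1 : ℝ) := Real.rpow_le_rpow_of_exponent_le hR1 (by linarith)
        _ = R := Real.rpow_one R
    refine (le_of_eq ?_).trans ((hCN' R (R ^ (1 - ε₀)) z₀ QQ (by positivity) h1 hR1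
      hQz).trans (le_of_eq ?_))
    · congr
    · congr 1
      have h2 : R / R ^ (1 - ε₀) = R ^ ε₀ := by
        rw [div_eq_iff (by positivity), ← Real.rpow_add hR0]
        rw [show ε₀ + (1 - ε₀) = 1 by ring, Real.rpow_one]
      rw [h2, ← Real.rpow_natCast, ← Real.rpow_mul hR0.le]
      congr 1
      push_cast
      ring
  -- one end
  have hRδ0 : 0 < R ^ δ := by positivity
  have hκO : κ + CO * R ^ (-δ) ≤ 1 / 2 := by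
    have h1 : CO * R ^ (-δ) ≤ 1 / 8 := by
      rw [Real.rpow_neg hR0.le, ← div_eq_mul_inv, div_le_iff₀ hRδ0]
      linarith
    linarith
  have hκO' : κ + CO * R ^ (-δ) ≤ κ + C * R ^ (-δ) := by gcongr
  have hcard0 : 0 ≤ ∑ W ∈ S1, al N β R δ G W ^ 2 * R ^ (((m : ℝ) + 2) / 2) :=
    Finset.sum_nonneg (fun W _ => by positivity)
  have keyO := hO κ R T A H' g G S1 QQ l1 k1 X' hκ0 hκ hR1 (by linarith) hRT hA hH'0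
    (by linarith) (Bdp_mono hκO' (by positivity) hT0.le hκO hBd) hG hBC hX's
    (fun W hW => (hS0 W (hS1S hW)).1)
    (fun z hz => ⟨(hXall z (hX'X hz)).2.1, (hXall z (hX'X hz)).2.2.1, hX'Q z hz, hX'H' z hz⟩)
  have keyO' := numXx x hx0 hx4 X.card X'.card H H' C9 R δ _ n (by positivity) hH'0
        (Nat.cast_nonneg _) hR0 (by linarith) hXc hHH' hn3 keyO
  refine ⟨keyO'.trans ?_, ?_⟩
  · exact caseAx m x R δ ε₀ ε₁ C C9 CO CN CA (2 ^ k1) g A _ e hR1 hδ hε₁ (by linarith) hA he0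
      (by linarith) (by linarith) (by positivity) (by linarith) hk CA.2 hcard0 hEn hCC0
      (by linarith)
  intro hTEN hγ1 hγ2 hε₂ hRT2
  by_cases hk2 : CT ≤ (2 : ℝ) ^ k1
  · -- two ends
    have hEnpos : 0 < (CA : ℝ) * e := by
      obtain ⟨W, hW⟩ := hSBn
      have hW1 := (mem_SB.1 hW).1
      refine lt_of_lt_of_le ?_ hEn
      have h4 : 0 < al N β R δ G W :=
        lt_of_lt_of_le ha₀0 (ha1a.trans (hS1a W hW1).1)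
      refine lt_of_lt_of_le (by positivity : 0 < al N β R δ G W ^ 2 * R ^ (((m : ℝ) + 2) / 2))
        (Finset.single_le_sum (f := fun W => al N β R δ G W ^ 2 * R ^ (((m : ℝ) + 2) / 2))
          (fun W _ => by positivity) hW1)
    have key := hT hTEN hγ1 hγ2 hε₂ κ R T (D * A) H' (CA * e) G z₀ S1 a1 (b1 : ℝ) l1 k1 QQ
      (ν : ℝ) X' hκ0 hκ hR1 r4 hRT2 (by positivity) hH'0 ?_ hEnpos
      (Cls_monoA hR0 hA.le (le_mul_of_one_le_left hA.le hD1) hG)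
      (BC_monoA hR0.le hA.le (le_mul_of_one_le_left hA.le hD1) hBC) hX's
      (fun z hz => ⟨hXz z (hX'X hz), (hXall z (hX'X hz)).2.1, (hXall z (hX'X hz)).2.2.1⟩)
      ?_ ?_ ?_ ?_ ?_ hEn ?_ ?_ ?_ ?_ hX'Q hQz hk2 hX'H'
    · refine (numXx x hx0 hx4 X.card X'.card H H' C9 R δ _ n (by positivity) hH'0
        (Nat.cast_nonneg _) hR0 (by linarith) hXc hHH' hn3 key).trans ?_
      exact caseTx m x hx4 R δ ε₀ ε₁ C C9 CT CA D g A e hR1 hδ hε (by linarith) hA he0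
        (by linarith) (by linarith) CA.2 hD1 hCC2 (by linarith)
    · rw [hH']
      have := small3 hR1 hb₀ hA hAH1 hD1 r6 (by positivity) hH hn2
      rwa [one_mul] at this
    · intro W hW
      have h1 := hS0 W (hS1S hW)
      have h2 := hS1a W hW
      exact ⟨h1.1, h1.2.1, h1.2.2.1, h2.1, h2.2⟩
    · have h1 : (S1.card : ℝ) ≤ S0.card := by
        exact_mod_cast Finset.card_le_card hS1S
      exact (h1.trans hS0c).trans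
        (mul_le_mul_of_nonneg_right (le_max_left _ _) (by positivity))
    · exact lt_of_lt_of_le ha₀0 ha1a
    · exact_mod_cast hb11
    · intro W hW
      have h1 := hS1b W hW
      exact ⟨by exact_mod_cast h1.1, by exact_mod_cast h1.2⟩
    · exact small6 hR0 CA.2 hCE.le hD1 hD2 (le_max_right _ _) heE
    · exact lt_of_lt_of_le one_pos (by exact_mod_cast hν)
    · exact hνQ.trans (small7 hR1 hC9 hD1 r6 (Nat.cast_nonneg _) (Nat.cast_nonneg _) hn2)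
    · intro q
      exact_mod_cast hνX q
  · -- one end again
    refine keyO'.trans ?_
    exact caseOx m x R δ ε₀ ε₁ C C9 CO CT CA (2 ^ k1) g A _ e hR1 hδ hε₁ (by linarith) hA he0
      (by linarith) (by linarith) (by positivity) (not_le.1 hk2).le CA.2 hcard0 hEn hCC1
      (by linarith)

end Pool.Agent.H1.HDN
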